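import Pool.Agent.H629.CG.All

set_option autoImplicit false

/-!
# MP_e22585_pr: moments of the centered Gaussian multiplicative chaos on `[0,1]`

The answer to Q1 is yes.  Let `0 < μ < 2`, let `r` be admissible (interval case `c = false` or circle
case `c = true`), let `φ` be a Borel weight with `0 < a ≤ φ ≤ b` on `[0,1]`, let `ω_ε = X ε` be
Gaussian processes on `[0,1)` with mean `-Var/2` and the covariance of the problem, and let `M` be
the limit measure.  Then for every real `q` with `-1/μ - 1/2 < q < 2/μ`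

`e^{μ (log r(ε) - 1) q (q + 1)/2} E[(∫ φ(u) e^{ω_ε(u) - ω_ε(0)} du)^q] → E[(∫ r(u)^{μ q} φ(u) M(du))^q]`

as `ε → 0+`; all integrals exist and the random variables are positive.

Proof: Girsanov removes `ω_ε(0)`; Kahane's convexity inequality (for jointly measurable Gaussian
processes, proved here by interpolation and random sampling) compares the field on blocks with
independent rescaled copies of itself, which gives uniform bounds for all moments of order
`p < 2/μ`; concave moments of small intervals control the singularity of the weight at `0`.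
-/

open MeasureTheory ProbabilityTheory Filter Topology Set
open Pool.Agent.H629.CG

namespace Pool.Agent.Results.MP_e22585_pr.CenteredMoments

theorem result (μ : ℝ) (hμ : 0 < μ) (hμ2 : μ < 2) (r : ℝ → ℝ) (c : Bool) (hr : Admissible r c)
    (φ : ℝ → ℝ) (hφ : Measurable φ)
    (hφb : ∃ a b : ℝ, 0 < a ∧ ∀ u ∈ Icc (0 : ℝ) 1, a ≤ φ u ∧ φ u ≤ b)
    (ε₀ : ℝ) (hε₀ : 0 < ε₀) (Ω : ℝ → Type) [∀ ε, MeasurableSpace (Ω ε)]
    (P : ∀ ε, Measure (Ω ε)) (X : ∀ ε, ℝ → Ω ε → ℝ)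
    (hX : ∀ ε ∈ Ioo 0 ε₀, IsField μ r c ε (P ε) (X ε))
    (Ω' : Type) [MeasurableSpace Ω'] (P' : Measure Ω') [IsProbabilityMeasure P']
    (M : Ω' → Measure ℝ) (hM : IsLimit P X P' M)
    (q : ℝ) (hq : -1 / μ - 1 / 2 < q) (hq2 : q < 2 / μ) :
    -- the right-hand side is a moment of a positive random variable
    (∀ᵐ ω ∂P', IntegrableOn (fun u => r u ^ (μ * q) * φ u) (Ioo 0 1) (M ω) ∧
      0 < ∫ u in Ioo 0 1, r u ^ (μ * q) * φ u ∂(M ω)) ∧
    Integrable (fun ω => (∫ u in Ioo 0 1, r u ^ (μ * q) * φ u ∂(M ω)) ^ q) P' ∧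
    -- so is the left-hand side, for small `ε`
    (∀ᶠ ε in 𝓝[>] (0 : ℝ),
      (∀ᵐ ω ∂(P ε), IntegrableOn (fun u => φ u * Real.exp (X ε u ω - X ε 0 ω)) (Icc (0 : ℝ) 1) ∧
        0 < ∫ u in Icc (0 : ℝ) 1, φ u * Real.exp (X ε u ω - X ε 0 ω)) ∧
      Integrable (fun ω => (∫ u in Icc (0 : ℝ) 1, φ u * Real.exp (X ε u ω - X ε 0 ω)) ^ q) (P ε)) ∧
    -- the limit
    Tendsto (fun ε => Real.exp (μ * (Real.log (r ε) - 1) * (q * (q + 1) / 2)) *
        ∫ ω, (∫ u in Icc (0 : ℝ) 1, φ u * Real.exp (X ε u ω - X ε 0 ω)) ^ q ∂(P ε)) (𝓝[>] 0)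
      (𝓝 (∫ ω, (∫ u in Ioo 0 1, r u ^ (μ * q) * φ u ∂(M ω)) ^ q ∂P')) :=
  all.2 μ r c hμ hμ2 hr φ hφ hφb ε₀ Ω P X Ω' P' M hε₀ hX hM q hq hq2

end Pool.Agent.Results.MP_e22585_pr.CenteredMoments
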